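import Mathlib
import Pool.Agent.Q199.Sier.Basic

set_option autoImplicit false

namespace Pool.Agent.Results.MP_adcce9_an.NoCZeroSum

open Pool.Agent.Q199.Sier ZeroAtInfty

private lemma zbound {𝕜 : Type} [RCLike 𝕜] (f : C₀(ℕ, 𝕜)) (i : ℕ) : ‖f i‖ ≤ ‖f‖ := by
  rw [← ZeroAtInftyContinuousMap.norm_toBCF_eq_norm]
  exact BoundedContinuousFunction.norm_coe_le_norm f.toBCF i

private lemma znorm_le {𝕜 : Type} [RCLike 𝕜] (f : C₀(ℕ, 𝕜)) {C : ℝ} (hC : 0 ≤ C)
    (h : ∀ i, ‖f i‖ ≤ C) : ‖f‖ ≤ C := by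
  rw [← ZeroAtInftyContinuousMap.norm_toBCF_eq_norm]
  exact (BoundedContinuousFunction.norm_le hC).2 h

/-- unit vectors of `c₀` -/
private noncomputable def ee (𝕜 : Type) [RCLike 𝕜] (n : ℕ) : C₀(ℕ, 𝕜) where
  toFun := fun i => if i = n then 1 else 0
  continuous_toFun := continuous_of_discreteTopology
  zero_at_infty' := by
    rw [Filter.cocompact_eq_cofinite, Nat.cofinite_eq_atTop]
    refine tendsto_const_nhds.congr' ?_
    filter_upwards [Filter.eventually_gt_atTop n] with i hi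
    simp [hi.ne']

private lemma ee_apply (𝕜 : Type) [RCLike 𝕜] (n i : ℕ) : ee 𝕜 n i = if i = n then 1 else 0 := rfl

/-- Let `f : ℕ → ℚ` be any map (for instance a bijection) and let `X` be the Sierpiński space
`X_f`, i.e. a Banach space with a linear map `J` from the finitely supported sequences onto a dense
subspace with `‖J x‖ = cliqueNorm f x`. Then no linear map `T : c₀ × c₀ → X` satisfies
`‖T (a, b)‖ = ‖a‖ + ‖b‖`. -/
theorem result {𝕜 : Type} [RCLike 𝕜] (f : ℕ → ℚ) (X : Type*) [NormedAddCommGroup X]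
    [NormedSpace 𝕜 X] [CompleteSpace X] (J : (ℕ →₀ 𝕜) →ₗ[𝕜] X)
    (hJ : ∀ x, ‖J x‖ = cliqueNorm f x) (hd : DenseRange J) :
    ¬ ∃ T : (C₀(ℕ, 𝕜) × C₀(ℕ, 𝕜)) →ₗ[𝕜] X, ∀ a b, ‖T (a, b)‖ = ‖a‖ + ‖b‖ := by
  classical
  rintro ⟨T, hT⟩
  have he1 : ∀ i, ‖ee 𝕜 i‖ = 1 := by
    intro i
    refine le_antisymm (znorm_le _ zero_le_one fun k => ?_) ?_
    · rw [ee_apply]; split_ifs <;> simp
    · have := zbound (ee 𝕜 i) i
      rw [ee_apply] at this
      simpa using this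
  have hdiff : ∀ n m, n < m → ‖ee 𝕜 n - ee 𝕜 m‖ = 1 := by
    intro n m hnm
    refine le_antisymm (znorm_le _ zero_le_one fun k => ?_) ?_
    · rw [ZeroAtInftyContinuousMap.sub_apply, ee_apply, ee_apply]
      by_cases h1 : k = n
      · subst h1; simp [hnm.ne]
      · by_cases h2 : k = m
        · subst h2; simp [h1]
        · simp [h1, h2]
    · have := zbound (ee 𝕜 n - ee 𝕜 m) n
      rw [ZeroAtInftyContinuousMap.sub_apply, ee_apply, ee_apply] at this
      simpa [hnm.ne] using this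
  have hdiff2 : ∀ n m n' m', n < m → m < n' → n' < m' →
      ‖(ee 𝕜 n - ee 𝕜 m) + (ee 𝕜 n' - ee 𝕜 m')‖ ≤ 1 := by
    intro n m n' m' h1 h2 h3
    refine znorm_le _ zero_le_one fun k => ?_
    rw [ZeroAtInftyContinuousMap.add_apply, ZeroAtInftyContinuousMap.sub_apply,
      ZeroAtInftyContinuousMap.sub_apply, ee_apply, ee_apply, ee_apply, ee_apply]
    have key : ∀ P Q R S : Prop, ∀ [Decidable P] [Decidable Q] [Decidable R] [Decidable S],
        (P → ¬ Q ∧ ¬ R ∧ ¬ S) → (Q → ¬ R ∧ ¬ S) → (R → ¬ S) →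
        ‖((if P then (1 : 𝕜) else 0) - (if Q then 1 else 0)) +
          ((if R then 1 else 0) - (if S then 1 else 0))‖ ≤ 1 := by
      intro P Q R S _ _ _ _ hP hQ hR
      by_cases p : P
      · obtain ⟨q, r, t⟩ := hP p; simp [p, q, r, t]
      · by_cases q : Q
        · obtain ⟨r, t⟩ := hQ q; simp [p, q, r, t]
        · by_cases r : R
          · have t := hR r; simp [p, q, r, t]
          · by_cases t : S <;> simp [p, q, r, t]
    exact key _ _ _ _ (by omega) (by omega) (by omega)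
  let a : ℕ → X := fun n => T (ee 𝕜 n, 0)
  let b : ℕ → X := fun n => T (0, ee 𝕜 n)
  have ha : ∀ n, ‖a n‖ ≤ 1 := fun n => by
    show ‖T (ee 𝕜 n, 0)‖ ≤ 1
    rw [hT, he1]; simp
  have hb : ∀ n, ‖b n‖ ≤ 1 := fun n => by
    show ‖T (0, ee 𝕜 n)‖ ≤ 1
    rw [hT, he1]; simp
  have hε : (0 : ℝ) < 1 / 20 := by norm_num
  obtain ⟨n1, m1, -, h1, u, hu0, hu⟩ := extract f J hJ hd a ha 0 0 hε
  obtain ⟨N, hN0, hN⟩ := exists_bound u 0
  obtain ⟨n2, m2, -, h2, v, hv0, hv⟩ := extract f J hJ hd b hb N 0 hε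
  obtain ⟨M, hNM, hM⟩ := exists_bound v N
  obtain ⟨n3, m3, h31, h3, u', hu'0, hu'⟩ := extract f J hJ hd a ha M (m1 + 1) hε
  obtain ⟨K, hMK, hK⟩ := exists_bound u' M
  obtain ⟨n4, m4, h42, h4, v', hv'0, hv'⟩ := extract f J hJ hd b hb K (m2 + 1) hε
  have ta : ∀ n m, a n - a m = T (ee 𝕜 n - ee 𝕜 m, 0) := by
    intro n m
    show T (ee 𝕜 n, 0) - T (ee 𝕜 m, 0) = _
    rw [← map_sub]; simp
  have tb : ∀ n m, b n - b m = T (0, ee 𝕜 n - ee 𝕜 m) := by
    intro n m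
    show T (0, ee 𝕜 n) - T (0, ee 𝕜 m) = _
    rw [← map_sub]; simp
  rw [ta] at hu hu'
  rw [tb] at hv hv'
  have sum_close : ∀ (x y : X) (p q : ℕ →₀ 𝕜), ‖x - J p‖ ≤ 1 / 20 → ‖y - J q‖ ≤ 1 / 20 →
      ‖(x + y) - J (p + q)‖ ≤ 1 / 10 := by
    intro x y p q hx hy
    have : (x + y) - J (p + q) = (x - J p) + (y - J q) := by rw [map_add]; abel
    rw [this]
    refine (norm_add_le _ _).trans ?_
    linarith
  refine comb2 f u v u' v' N M K hNM hMK hN hv0 hM hu'0 hK hv'0 (ε := 1 / 10) (by norm_num)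
    le_rfl ?_ ?_ ?_ ?_ ?_ ?_ ?_ ?_
  · have h := (norm_close (sum_close _ _ _ _ hv hu')).1
    rw [← map_add, hJ, Prod.mk_add_mk, hT, add_zero, zero_add, hdiff _ _ h2, hdiff _ _ h3] at h
    linarith
  · have h := (norm_close (sum_close _ _ _ _ hu hv')).1
    rw [← map_add, hJ, Prod.mk_add_mk, hT, add_zero, zero_add, hdiff _ _ h1, hdiff _ _ h4] at h
    linarith
  · have h := (norm_close (sum_close _ _ _ _ hv hv')).2
    rw [← map_add, hJ, Prod.mk_add_mk, hT, add_zero, norm_zero, zero_add] at h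
    have h5 := hdiff2 _ _ _ _ h2 (show m2 < n4 by omega) h4
    linarith
  · have h := (norm_close (sum_close _ _ _ _ hu hu')).2
    rw [← map_add, hJ, Prod.mk_add_mk, hT, add_zero, norm_zero, add_zero] at h
    have h5 := hdiff2 _ _ _ _ h1 (show m1 < n3 by omega) h3
    linarith
  · have h := (norm_close hu).2
    rw [hJ, hT, hdiff _ _ h1, norm_zero] at h
    linarith
  · have h := (norm_close hv).2
    rw [hJ, hT, hdiff _ _ h2, norm_zero] at h
    linarith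
  · have h := (norm_close hu').2
    rw [hJ, hT, hdiff _ _ h3, norm_zero] at h
    linarith
  · have h := (norm_close hv').2
    rw [hJ, hT, hdiff _ _ h4, norm_zero] at h
    linarith

end Pool.Agent.Results.MP_adcce9_an.NoCZeroSum
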