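import Mathlib
import Pool.Agent.Q199.Sier.Basic

set_option autoImplicit false

namespace Pool.Agent.Results.MP_adcce9_an.NoEllOneSum

open Pool.Agent.Q199.Sier

private lemma norm_comb {𝕜 : Type} [RCLike 𝕜] (s : Finset ℕ) (c : ℕ → 𝕜) :
    ‖∑ i ∈ s, lp.single (E := fun _ : ℕ => 𝕜) 1 i (c i)‖ = ∑ i ∈ s, ‖c i‖ := by
  have h := lp.norm_sum_single (E := fun _ : ℕ => 𝕜) (p := 1) (by simp) c s
  simpa using h

/-- `X` contains a linear isometric copy of the direct sum `Y ⊕₀ Y` with norm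
`max(‖a‖, ‖b‖)`. -/
def ContainsMaxSum (𝕜 : Type) [RCLike 𝕜] (Y X : Type*) [NormedAddCommGroup Y] [NormedSpace 𝕜 Y]
    [NormedAddCommGroup X] [NormedSpace 𝕜 X] : Prop :=
  ∃ T : (Y × Y) →ₗ[𝕜] X, ∀ a b, ‖T (a, b)‖ = max ‖a‖ ‖b‖

/-- Let `f : ℕ → ℚ` be any map (for instance a bijection) and let `X` be the Sierpiński space
`X_f`, i.e. a Banach space with a linear map `J` from the finitely supported sequences onto a dense
subspace with `‖J x‖ = cliqueNorm f x`. Then no linear map `T : ℓ₁ × ℓ₁ → X` satisfies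
`‖T (a, b)‖ = max ‖a‖ ‖b‖`: the space contains no isometric copy of `ℓ₁ ⊕₀ ℓ₁`. -/
theorem result {𝕜 : Type} [RCLike 𝕜] (f : ℕ → ℚ) (X : Type*) [NormedAddCommGroup X]
    [NormedSpace 𝕜 X] [CompleteSpace X] (J : (ℕ →₀ 𝕜) →ₗ[𝕜] X)
    (hJ : ∀ x, ‖J x‖ = cliqueNorm f x) (hd : DenseRange J) :
    ¬ ContainsMaxSum 𝕜 (lp (fun _ : ℕ => 𝕜) 1) X := by
  classical
  rintro ⟨T, hT⟩
  let e : ℕ → lp (fun _ : ℕ => 𝕜) 1 := fun i => lp.single (E := fun _ : ℕ => 𝕜) 1 i (1 : 𝕜)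
  have hcomb : ∀ (s : Finset ℕ) (c : ℕ → 𝕜), ‖∑ i ∈ s, c i • e i‖ = ∑ i ∈ s, ‖c i‖ := by
    intro s c
    rw [← norm_comb]
    congr 1
    refine Finset.sum_congr rfl fun i _ => ?_
    show c i • lp.single (E := fun _ : ℕ => 𝕜) 1 i (1 : 𝕜) = _
    rw [← lp.single_smul]; simp
  have he1 : ∀ i, ‖e i‖ = 1 := by
    intro i
    have := hcomb {i} (fun _ => 1)
    simpa using this
  have hdiff : ∀ n m, n < m → ‖e n - e m‖ = 2 := by
    intro n m hnm
    have h := hcomb {n, m} (fun i => if i = n then 1 else -1)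
    rw [Finset.sum_pair hnm.ne, Finset.sum_pair hnm.ne] at h
    simp only [if_true, hnm.ne', if_false, one_smul, neg_smul, norm_one, norm_neg] at h
    rw [sub_eq_add_neg, h]; norm_num
  have hdiff2 : ∀ n m n' m', n < m → m < n' → n' < m' →
      ‖(e n - e m) + (e n' - e m')‖ = 4 := by
    intro n m n' m' h1 h2 h3
    have hs : ∀ g : ℕ → ℝ, ∑ i ∈ ({n, m, n', m'} : Finset ℕ), g i = g n + (g m + (g n' + g m')) := by
      intro g
      rw [Finset.sum_insert, Finset.sum_insert, Finset.sum_pair h3.ne]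
      · simp; omega
      · simp; omega
    have hs' : ∀ g : ℕ → lp (fun _ : ℕ => 𝕜) 1, ∑ i ∈ ({n, m, n', m'} : Finset ℕ), g i =
        g n + (g m + (g n' + g m')) := by
      intro g
      rw [Finset.sum_insert, Finset.sum_insert, Finset.sum_pair h3.ne]
      · simp; omega
      · simp; omega
    have h := hcomb {n, m, n', m'} (fun i => if i = n ∨ i = n' then 1 else -1)
    rw [hs, hs'] at h
    have e1 : m ≠ n := by omega
    have e2 : m ≠ n' := by omega
    have e3 : m' ≠ n := by omega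
    have e4 : m' ≠ n' := by omega
    simp only [true_or, or_true, if_true, e1, e2, e3, e4, or_self, if_false, one_smul, neg_smul,
      norm_one, norm_neg] at h
    have h5 : (e n - e m) + (e n' - e m') = e n + (-e m + (e n' + -e m')) := by abel
    rw [h5, h]; norm_num
  -- the three blocks
  let a : ℕ → X := fun n => T (e n, 0)
  let b : ℕ → X := fun n => T (0, e n)
  have ha : ∀ n, ‖a n‖ ≤ 1 := fun n => by
    show ‖T (e n, 0)‖ ≤ 1
    rw [hT, he1]; simp
  have hb : ∀ n, ‖b n‖ ≤ 1 := fun n => by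
    show ‖T (0, e n)‖ ≤ 1
    rw [hT, he1]; simp
  have hε : (0 : ℝ) < 1 / 20 := by norm_num
  obtain ⟨n1, m1, -, h1, u, hu0, hu⟩ := extract f J hJ hd a ha 0 0 hε
  obtain ⟨N, hN0, hN⟩ := exists_bound u 0
  obtain ⟨n2, m2, -, h2, v, hv0, hv⟩ := extract f J hJ hd b hb N 0 hε
  obtain ⟨M, hNM, hM⟩ := exists_bound v N
  obtain ⟨n3, m3, h31, h3, w, hw0, hw⟩ := extract f J hJ hd a ha M (m1 + 1) hε
  have ta : ∀ n m, a n - a m = T (e n - e m, 0) := by
    intro n m
    show T (e n, 0) - T (e m, 0) = _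
    rw [← map_sub]; simp
  have tb : ∀ n m, b n - b m = T (0, e n - e m) := by
    intro n m
    show T (0, e n) - T (0, e m) = _
    rw [← map_sub]; simp
  rw [ta] at hu hw
  rw [tb] at hv
  have sum_close : ∀ (x y : X) (p q : ℕ →₀ 𝕜), ‖x - J p‖ ≤ 1 / 20 → ‖y - J q‖ ≤ 1 / 20 →
      ‖(x + y) - J (p + q)‖ ≤ 1 / 10 := by
    intro x y p q hx hy
    have : (x + y) - J (p + q) = (x - J p) + (y - J q) := by rw [map_add]; abel
    rw [this]
    refine (norm_add_le _ _).trans ?_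
    linarith
  refine comb1 f u v w N M hNM hN hv0 hM hw0 (ε := 1 / 10) (by norm_num) le_rfl ?_ ?_ ?_ ?_ ?_ ?_
  · have h := (norm_close (sum_close _ _ _ _ hu hw)).1
    rw [← map_add, hJ] at h
    have h5 : ‖T ((e n1 - e m1, (0 : lp (fun _ : ℕ => 𝕜) 1)) + (e n3 - e m3, 0))‖ = 4 := by
      rw [Prod.mk_add_mk, hT, hdiff2 _ _ _ _ h1 (by omega) h3]; simp
    rw [h5] at h
    exact h
  · have h := (norm_close hv).1
    rw [hJ, hT, hdiff _ _ h2] at h
    have h5 : max ‖(0 : lp (fun _ : ℕ => 𝕜) 1)‖ 2 = 2 := by simp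
    rw [h5] at h
    linarith
  · have h := (norm_close (sum_close _ _ _ _ hu hv)).2
    rw [← map_add, hJ, Prod.mk_add_mk, hT, add_zero, zero_add, hdiff _ _ h1, hdiff _ _ h2,
      max_self] at h
    exact h
  · have h := (norm_close (sum_close _ _ _ _ hv hw)).2
    rw [← map_add, hJ, Prod.mk_add_mk, hT, add_zero, zero_add, hdiff _ _ h3, hdiff _ _ h2,
      max_self] at h
    exact h
  · have h := (norm_close hu).2
    rw [hJ, hT, hdiff _ _ h1] at h
    have h5 : max 2 ‖(0 : lp (fun _ : ℕ => 𝕜) 1)‖ = 2 := by simp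
    rw [h5] at h
    linarith
  · have h := (norm_close hw).2
    rw [hJ, hT, hdiff _ _ h3] at h
    have h5 : max 2 ‖(0 : lp (fun _ : ℕ => 𝕜) 1)‖ = 2 := by simp
    rw [h5] at h
    linarith

end Pool.Agent.Results.MP_adcce9_an.NoEllOneSum
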